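import Pool.Agent.W555.EQ.Stm

set_option autoImplicit false

namespace Pool.Agent.W628.EQ

open Pool.Agent.W555.EQ MvPolynomial Topology Filter

/-- the differential of a polynomial -/
noncomputable def dp {I : Type} [Fintype I] (p : MvPolynomial I ℂ) (y : I → ℂ) :
    (I → ℂ) →L[ℂ] ℂ :=
  ∑ j, eval y (pderiv j p) • (ContinuousLinearMap.proj (R := ℂ) (φ := fun _ : I => ℂ) j)

theorem dp_apply {I : Type} [Fintype I] (p : MvPolynomial I ℂ) (y v : I → ℂ) :
    dp p y v = ∑ j, eval y (pderiv j p) * v j := by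
  simp [dp, ContinuousLinearMap.sum_apply]

theorem hasStrictFDerivAt_eval {I : Type} [Fintype I] [DecidableEq I] (p : MvPolynomial I ℂ)
    (y : I → ℂ) : HasStrictFDerivAt (fun x : I → ℂ => eval x p) (dp p y) y := by
  induction p using MvPolynomial.induction_on with
  | C a =>
    have h : dp (C a) y = 0 := by
      ext v; simp [dp_apply]
    rw [h]
    simpa using hasStrictFDerivAt_const a y
  | add p q hp hq =>
    have h : dp (p + q) y = dp p y + dp q y := by
      ext v; simp [dp_apply, add_mul, Finset.sum_add_distrib]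
    rw [h]
    have e : (fun x : I → ℂ => eval x (p + q)) =
        (fun x : I → ℂ => eval x p) + fun x : I → ℂ => eval x q := by
      funext x; simp
    rw [e]
    exact hp.add hq
  | mul_X p i hp =>
    have hX : HasStrictFDerivAt (fun x : I → ℂ => x i)
        (ContinuousLinearMap.proj (R := ℂ) (φ := fun _ : I => ℂ) i) y :=
      (ContinuousLinearMap.proj (R := ℂ) (φ := fun _ : I => ℂ) i).hasStrictFDerivAt
    have h := hp.mul hX
    have e : dp (p * X i) y = eval y p • (ContinuousLinearMap.proj (R := ℂ)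
        (φ := fun _ : I => ℂ) i) + y i • dp p y := by
      refine ContinuousLinearMap.ext fun v => ?_
      simp only [dp_apply, ContinuousLinearMap.add_apply, ContinuousLinearMap.smul_apply,
        ContinuousLinearMap.proj_apply, smul_eq_mul, Derivation.leibniz, pderiv_X, map_add,
        map_mul, eval_X, Finset.mul_sum, add_mul, Finset.sum_add_distrib]
      congr 1
      · rw [Finset.sum_eq_single i]
        · simp
        · intro j _ hj
          simp [Pi.single_apply, hj]
        · simp
      · refine Finset.sum_congr rfl fun j _ => ?_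
        ring
    rw [e]
    have e2 : (fun x : I → ℂ => eval x (p * X i)) =
        (fun x : I → ℂ => eval x p) * fun x : I → ℂ => x i := by
      funext x; simp
    rw [e2]
    exact h

theorem hasStrictFDerivAt_pm {I : Type} [Fintype I] [DecidableEq I] (f : I → MvPolynomial I ℂ)
    (y : I → ℂ) : HasStrictFDerivAt (pm f) (ContinuousLinearMap.pi fun i => dp (f i) y) y := by
  rw [hasStrictFDerivAt_pi]
  intro i
  exact hasStrictFDerivAt_eval (f i) y

theorem map_nhds {I : Type} [Fintype I] [DecidableEq I] (f : I → MvPolynomial I ℂ)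
    (y : I → ℂ) (h : eval y (jac f) ≠ 0) : map (pm f) (𝓝 y) = 𝓝 (pm f y) := by
  refine (hasStrictFDerivAt_pm f y).map_nhds_eq_of_surj ?_
  set M : Matrix I I ℂ := Matrix.of fun i j => eval y (pderiv j (f i)) with hM
  have hdet : M.det ≠ 0 := by
    have : M.det = eval y (jac f) := by
      rw [jac, RingHom.map_det]
      rfl
    rw [this]; exact h
  have hu : IsUnit M.det := isUnit_iff_ne_zero.mpr hdet
  rw [LinearMap.range_eq_top]
  intro w
  refine ⟨M⁻¹.mulVec w, ?_⟩
  have h1 : M.mulVec (M⁻¹.mulVec w) = w := by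
    rw [Matrix.mulVec_mulVec, Matrix.mul_nonsing_inv _ hu, Matrix.one_mulVec]
  funext i
  have h2 := congrFun h1 i
  rw [← h2]
  show dp (f i) y _ = _
  rw [dp_apply]
  rfl

theorem continuous_pm {I : Type} [Fintype I] (f : I → MvPolynomial I ℂ) : Continuous (pm f) := by
  refine continuous_pi fun i => ?_
  exact MvPolynomial.continuous_eval (f i)

theorem openA (hd : StDep) (hc : StConn) : StOpenA := by
  intro I _ _ f hJ y0 ρ hρ hiso ε hε
  obtain ⟨R, hR, hdvd⟩ := hd I f (jac f) hJ
  have hRJ : ∀ y, eval (pm f y) R ≠ 0 → eval y (jac f) ≠ 0 := by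
    intro y h1 h2
    apply h1
    obtain ⟨q, hq⟩ := hdvd
    have : eval y (aeval f R) = eval (pm f y) R := by
      have h3 : ((aeval y : MvPolynomial I ℂ →ₐ[ℂ] ℂ).comp (aeval f : MvPolynomial I ℂ →ₐ[ℂ] _))
          = aeval (pm f y) := by
        refine MvPolynomial.algHom_ext fun i => ?_
        simp [pm, coe_aeval_eq_eval]
      have h4 := congrArg (fun φ => φ R) h3
      simpa [coe_aeval_eq_eval] using h4
    rw [← this, hq, map_mul, h2, zero_mul]
  set e' : ℝ := min ε ρ / 2 with he'
  have he0 : 0 < e' := by positivity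
  have heε : e' < ε := by
    have := min_le_left ε ρ
    linarith [lt_min hε hρ]
  have heρ : e' < ρ := by
    have := min_le_right ε ρ
    linarith [lt_min hε hρ]
  set z0 := pm f y0 with hz0
  have hcont := continuous_pm f
  set K : Set (I → ℂ) := pm f '' Metric.closedBall y0 e' with hK
  have hKc : IsClosed K := ((isCompact_closedBall y0 e').image hcont).isClosed
  set S : Set (I → ℂ) := pm f '' Metric.sphere y0 e' with hS
  have hSc : IsClosed S := ((isCompact_sphere y0 e').image hcont).isClosed
  have hzS : z0 ∉ S := by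
    rintro ⟨y, hy, hyz⟩
    have hdy : dist y y0 = e' := hy
    have := hiso y (by rw [hdy]; exact heρ) hyz
    rw [this, dist_self] at hdy
    linarith
  obtain ⟨δ, hδ, hball⟩ := Metric.isOpen_iff.mp hSc.isOpen_compl z0 hzS
  refine ⟨δ, hδ, ?_⟩
  set A : Set (I → ℂ) := {x : I → ℂ | x ∈ Metric.ball z0 δ ∧ MvPolynomial.eval x R ≠ 0} with hA
  obtain ⟨hpre, hclos⟩ := hc I R hR z0 δ
  -- points of A in K are interior
  have hint : ∀ z ∈ A, z ∈ K → z ∈ interior K := by
    rintro z ⟨hz1, hz2⟩ ⟨y, hy, rfl⟩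
    have hy' : y ∈ Metric.ball y0 e' := by
      rcases (Metric.mem_closedBall.mp hy).lt_or_eq with h | h
      · exact h
      · exact absurd ⟨y, h, rfl⟩ (hball hz1)
    have hm := map_nhds f y (hRJ y hz2)
    rw [mem_interior_iff_mem_nhds, ← hm]
    refine Filter.mem_of_superset (Filter.image_mem_map (Metric.isOpen_ball.mem_nhds hy')) ?_
    exact Set.image_mono Metric.ball_subset_closedBall
  have hne : (A ∩ interior K).Nonempty := by
    -- a point near y0 with nonzero Jacobian
    have hV : pm f ⁻¹' (Metric.ball z0 δ) ∩ Metric.ball y0 e' ∈ 𝓝 y0 :=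
      Filter.inter_mem (hcont.continuousAt.preimage_mem_nhds (Metric.ball_mem_nhds _ hδ))
        (Metric.ball_mem_nhds _ he0)
    obtain ⟨r, hr, hrV⟩ := Metric.mem_nhds_iff.mp hV
    have h1 := (hc I (jac f) hJ y0 r).2 (Metric.mem_ball_self hr)
    obtain ⟨y, hy, hJy⟩ := closure_nonempty_iff.mp ⟨_, h1⟩
    have hyV : y ∈ pm f ⁻¹' (Metric.ball z0 δ) ∩ Metric.ball y0 e' := hrV hy
    have hm := map_nhds f y hJy
    have hW : pm f ⁻¹' (Metric.ball z0 δ) ∩ Metric.ball y0 e' ∈ 𝓝 y :=
      ((Metric.isOpen_ball.preimage hcont).inter Metric.isOpen_ball).mem_nhds hyV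
    have h2 : pm f '' (pm f ⁻¹' (Metric.ball z0 δ) ∩ Metric.ball y0 e') ∈ 𝓝 (pm f y) := by
      rw [← hm]
      exact Filter.image_mem_map hW
    obtain ⟨s, hs, hsV⟩ := Metric.mem_nhds_iff.mp h2
    have h3 := (hc I R hR (pm f y) s).2 (Metric.mem_ball_self hs)
    obtain ⟨z, hz, hRz⟩ := closure_nonempty_iff.mp ⟨_, h3⟩
    have hsU : Metric.ball (pm f y) s ⊆ Metric.ball z0 δ := by
      refine hsV.trans ?_
      rintro _ ⟨x, hx, rfl⟩
      exact hx.1
    have hsK : Metric.ball (pm f y) s ⊆ K := by
      refine hsV.trans ?_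
      exact Set.image_mono (fun x hx => Metric.ball_subset_closedBall hx.2)
    exact ⟨z, ⟨hsU hz, hRz⟩, interior_maximal hsK Metric.isOpen_ball hz⟩
  have hAK : A ⊆ interior K := by
    refine hpre.subset_left_of_subset_union isOpen_interior hKc.isOpen_compl ?_ ?_ hne
    · exact Set.disjoint_compl_right_iff_subset.mpr interior_subset
    · intro z hz
      by_cases h : z ∈ K
      · exact Or.inl (hint z hz h)
      · exact Or.inr h
  intro z hz
  have h1 : z ∈ closure A := hclos hz
  have h2 : z ∈ K := (hKc.closure_subset_iff.mpr (hAK.trans interior_subset)) h1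
  obtain ⟨y, hy, hyz⟩ := h2
  exact ⟨y, lt_of_le_of_lt hy heε, hyz⟩

end Pool.Agent.W628.EQ
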